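import Pool.Agent.PST.StmtsGU

set_option autoImplicit false

open scoped BigOperators

noncomputable section

namespace Pool.Agent.PST.GU.H1

open Pool.Agent.PSS Pool.Agent.PST.GU

theorem cym (hYum : YumStmt) : CymStmt := by
  refine ⟨?_, ?_⟩
  · intro ℓ V V' _ _ E E' π hQ U hU hUk C hC
    induction hC with
    | bot =>
      intro _
      rw [Subgroup.map_bot]
      exact Cyu.bot
    | mul C Y hC hY hCY ih =>
      intro hk
      have hCk : C ⊓ π.ker = ⊥ := by
        rw [eq_bot_iff, ← hk]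
        exact inf_le_inf_right _ le_sup_left
      have hYk : Y ⊓ π.ker = ⊥ := by
        rw [eq_bot_iff, ← hk]
        exact inf_le_inf_right _ le_sup_right
      rw [Subgroup.map_sup]
      refine Cyu.mul _ _ (ih hCk) (hYum ℓ V V' E E' π hQ U Y hU hY hYk hUk) ?_
      rw [eq_bot_iff]
      rintro x ⟨⟨c, hc, hcx⟩, ⟨y, hy, hyx⟩⟩
      have h1 : c⁻¹ * y ∈ (C ⊔ Y) ⊓ π.ker := by
        refine ⟨Subgroup.mul_mem _ (Subgroup.inv_mem _ (Subgroup.mem_sup_left hc))
          (Subgroup.mem_sup_right hy), ?_⟩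
        show c⁻¹ * y ∈ π.ker
        rw [MonoidHom.mem_ker, map_mul, map_inv, hcx, hyx, inv_mul_cancel]
      rw [hk, Subgroup.mem_bot, inv_mul_eq_one] at h1
      subst h1
      have h2 : c ∈ C ⊓ Y := ⟨hc, hy⟩
      rw [hCY, Subgroup.mem_bot] at h2
      rw [Subgroup.mem_bot, ← hcx, h2, map_one]
  · intro ℓ V _ E U C hC hne
    cases hC with
    | bot => exact absurd rfl hne
    | mul C Y hC hY hCY => exact ⟨C, Y, hC, hY, hCY, rfl⟩

end Pool.Agent.PST.GU.H1
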