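import Pool.Agent.PST.StmtsGU

set_option autoImplicit false

open scoped BigOperators

noncomputable section

namespace Pool.Agent.PST.GU.H1

open Pool.Agent.Helper51_AWC Pool.Agent.Helper79_WRA Pool.Agent.PP Pool.Agent.PP.KF
open Pool.Agent.PP.K9 Pool.Agent.PP.K9.H97 Pool.Agent.PP.H75 Pool.Agent.PP.T3 Pool.Agent.PP.T2
open Pool.Agent.PFD (Ei)
open Pool.Agent.PSS Pool.Agent.PST Pool.Agent.PST.GU

attribute [local instance] Ideal.Quotient.field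

theorem fvt (hFnk : FnkStmt) (hClu : CluStmt) (hKsk : KskStmt) (hClt : CltStmt)
    (hCab : CabStmt) (hMnn : MnnFor (KU KT LR)) : FvtStmt := by
  intro ℓ hfact M _ hM G _ _ hc χ hχ H _ p hp hpk ψ hψ hψχ D hD hDO hab θ hθ hC
  have hfH : Finite H := Finite.of_surjective p hp
  refine hFnk (KU KT LR) hMnn ℓ M hM G hc χ hχ H p hp hpk ψ hψ hψχ D hD hDO hab θ hθ ?_
  intro e γ hγ hTg hDb
  rw [← hTg] at hC
  rcases hC with ⟨n, P, U, hC⟩ | ⟨hℓ2, hC⟩ | ⟨s, Y, U, hC⟩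
  · obtain ⟨W₀, hW⟩ := hClt ℓ M hM H e D γ hγ hDb n P U hC
    exact ⟨W₀, Or.inl hW⟩
  · obtain ⟨W₀, hW⟩ := hCab ℓ M hM hℓ2 H e D γ hγ hDb hC
    exact ⟨W₀, Or.inl hW⟩
  · obtain ⟨W₀, hW⟩ := hClu ℓ M hM H e D γ hγ hDb s Y U hC
    rcases hW with hW | hW
    · exact ⟨W₀, Or.inl (hKsk ℓ D (Ei D γ) W₀ hW)⟩
    · exact ⟨W₀, Or.inr hW⟩

end Pool.Agent.PST.GU.H1
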