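import Pool.Agent.PST.StmtsET1

/-!
# PST, block ET, row JCU (helper1): the Jacobian is a unit
-/

open scoped BigOperators TensorProduct

noncomputable section

namespace Pool.Agent.PST.ET.H1

open Pool.Agent.PFD.D2 (Cdv FibG)
open Pool.Agent.PST.ET

section aux

variable {R F V S : Type} [CommRing R] [Field F] [CommGroup V] [Fintype V] [DecidableEq V]
  [CommRing S] [Algebra R S]

lemma eps_zero (c : Cdv R F) (cf : V → (S →ₗ[R] R)) : eps c cf 0 = 0 := by
  simp [eps]

/-- the augmentation as a ring homomorphism -/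
def epsH (c : Cdv R F) (cf : V → (S →ₗ[R] R)) (h1 : eps c cf 1 = 1)
    (ha : ∀ a b, eps c cf (a + b) = eps c cf a + eps c cf b)
    (hm : ∀ a b, eps c cf (a * b) = eps c cf a * eps c cf b) : S →+* F where
  toFun := eps c cf
  map_one' := h1
  map_mul' := hm
  map_zero' := eps_zero c cf
  map_add' := ha

/-- the additive map `x ⊗ y ↦ eps x * dl m y` -/
def chi (c : Cdv R F) (cf : V → (S →ₗ[R] R)) (m : V → F)
    (ha : ∀ a b, eps c cf (a + b) = eps c cf a + eps c cf b)
    (hr : ∀ r a, eps c cf (r • a) = c.κ r * eps c cf a)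
    (hd : ∀ a b, dl c cf m (a + b) = dl c cf m a + dl c cf m b)
    (hdr : ∀ r a, dl c cf m (r • a) = c.κ r * dl c cf m a) : S ⊗[R] S →+ F :=
  TensorProduct.liftAddHom
    { toFun := fun x =>
        { toFun := fun y => eps c cf x * dl c cf m y
          map_zero' := by simp [dl]
          map_add' := fun a b => by rw [hd, mul_add] }
      map_zero' := by
        ext y
        simp [eps_zero]
      map_add' := fun a b => by
        ext y
        show eps c cf (a + b) * dl c cf m y = eps c cf a * dl c cf m y + eps c cf b * dl c cf m y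
        rw [ha, add_mul] }
    (fun r x y => by
      show eps c cf (r • x) * dl c cf m y = eps c cf x * dl c cf m (r • y)
      rw [hr, hdr]
      ring)

lemma chi_tmul (c : Cdv R F) (cf : V → (S →ₗ[R] R)) (m : V → F)
    (ha : ∀ a b, eps c cf (a + b) = eps c cf a + eps c cf b)
    (hr : ∀ r a, eps c cf (r • a) = c.κ r * eps c cf a)
    (hd : ∀ a b, dl c cf m (a + b) = dl c cf m a + dl c cf m b)
    (hdr : ∀ r a, dl c cf m (r • a) = c.κ r * dl c cf m a) (x y : S) :
    chi c cf m ha hr hd hdr (x ⊗ₜ[R] y) = eps c cf x * dl c cf m y := rfl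

end aux

theorem jcu (hEps : EpsStmt) (hUns : UnsStmt) : JcuStmt := by
  intro ℓ r _ R F V S _ _ _ _ _ _ _ _ c σ cf lam xx t b K g M hV hE hS hK hg hM
  obtain ⟨h1, ha, hm, hr, -, -, -, hσ, -⟩ :=
    hEps R F V S c σ cf (fun _ => 0) hS (by simp)
  set eH : S →+* F := epsH c cf h1 ha hm with heH
  have eH_apply : ∀ s, eH s = eps c cf s := fun s => rfl
  set mu : S ⊗[R] S →+* S := (Algebra.TensorProduct.lmul' (S := S) R).toRingHom with hmu
  have mu_tmul : ∀ x y : S, mu (x ⊗ₜ[R] y) = x * y := fun x y => by
    simp [hmu]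
  -- the reduced matrix
  set L : Matrix (Fin r) (Fin r) F := Matrix.of (fun l j => lam l (b j)) with hL
  set μ : Matrix (Fin r) (Fin r) F := Matrix.of (fun j i => eH (mu (M j i))) with hμ
  have key : ∀ n j, t n * lam n (b j) = ∑ i, eH (mu (M j i)) * lam n (b i) := by
    intro n j
    obtain ⟨-, -, -, -, hd, hdm, hdr, -, hdσ⟩ :=
      hEps R F V S c σ cf (lam n) hS (hE.add n)
    set χ := chi c cf (lam n) ha hr hd hdr with hχ
    have χt : ∀ x y : S, χ (x ⊗ₜ[R] y) = eps c cf x * dl c cf (lam n) y := fun x y => rfl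
    have hlam1 : lam n 1 = 0 := by
      have h := hE.add n 1 1
      rw [mul_one] at h
      exact left_eq_add.mp h
    have hd1 : dl c cf (lam n) 1 = 0 := by
      rw [← hS.one, hdσ, hlam1]
    -- derivation
    have χm : ∀ a b : S ⊗[R] S, χ (a * b) = eH (mu a) * χ b + χ a * eH (mu b) := by
      intro a b
      induction a using TensorProduct.induction_on with
      | zero => simp
      | add a a' h h' =>
        rw [add_mul, map_add, h, h', map_add, map_add, map_add]
        ring
      | tmul x y =>
        induction b using TensorProduct.induction_on with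
        | zero => simp
        | add b b' h h' =>
          rw [mul_add, map_add, h, h', map_add, map_add, map_add]
          ring
        | tmul x' y' =>
          rw [Algebra.TensorProduct.tmul_mul_tmul, χt, χt, χt, mu_tmul, mu_tmul, eH_apply,
            eH_apply, hm, hm, hm, hdm]
          ring
    have χd : ∀ i, χ (σ (b i) ⊗ₜ[R] (1 : S) - (1 : S) ⊗ₜ[R] σ (b i)) = - lam n (b i) := by
      intro i
      rw [map_sub, χt, χt, hd1, h1, hdσ]
      ring
    have ed : ∀ i, eH (mu (σ (b i) ⊗ₜ[R] (1 : S) - (1 : S) ⊗ₜ[R] σ (b i))) = 0 := by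
      intro i
      rw [map_sub, mu_tmul, mu_tmul, mul_one, one_mul, sub_self, map_zero]
    have χg : χ (g j ⊗ₜ[R] (1 : S) - (1 : S) ⊗ₜ[R] g j) = - (t n * lam n (b j)) := by
      rw [map_sub, χt, χt, hd1, h1]
      have : dl c cf (lam n) (g j) = t n * lam n (b j) := by
        show ∑ v, c.κ (cf v (g j)) * lam n v = _
        have e1 : ∀ v, c.κ (cf v (g j)) * lam n v =
            ∑ l, t l * lam l (b j) * (xx l v * lam n v) := by
          intro v
          rw [hg]
          show (∑ l, t l * lam l (b j) * xx l v) * lam n v = _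
          rw [Finset.sum_mul]
          exact Finset.sum_congr rfl fun l _ => by ring
        rw [Finset.sum_congr rfl fun v _ => e1 v, Finset.sum_comm]
        have e2 : ∀ l, ∑ v, t l * lam l (b j) * (xx l v * lam n v) =
            t l * lam l (b j) * if l = n then 1 else 0 := by
          intro l
          rw [← Finset.mul_sum, hE.x1]
        rw [Finset.sum_congr rfl fun l _ => e2 l]
        simp
      rw [this]
      ring
    have hMj := congrArg χ (hM j)
    rw [χg, map_sum] at hMj
    have e3 : ∀ i, χ (M j i * (σ (b i) ⊗ₜ[R] (1 : S) - (1 : S) ⊗ₜ[R] σ (b i))) =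
        - (eH (mu (M j i)) * lam n (b i)) := by
      intro i
      rw [χm, χd, ed]
      ring
    rw [Finset.sum_congr rfl fun i _ => e3 i, Finset.sum_neg_distrib] at hMj
    exact neg_injective hMj
  have hmat : Matrix.diagonal t * L = L * μ.transpose := by
    ext n j
    rw [Matrix.diagonal_mul, Matrix.mul_apply]
    show t n * lam n (b j) = ∑ i, lam n (b i) * eH (mu (M j i))
    rw [key]
    exact Finset.sum_congr rfl fun i _ => mul_comm _ _
  have hdetL : L.det ≠ 0 := by
    have h := congrArg Matrix.det hK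
    rw [Matrix.det_mul, Matrix.det_one] at h
    exact left_ne_zero_of_mul_eq_one h
  have hdet : μ.det = ∏ n, t n := by
    have h := congrArg Matrix.det hmat
    rw [Matrix.det_mul, Matrix.det_mul, Matrix.det_diagonal, Matrix.det_transpose,
      mul_comm] at h
    exact (mul_left_cancel₀ hdetL h).symm
  refine hUns ℓ R F V S c σ cf hV hS _ ?_
  have e4 : eps c cf (mu.mapMatrix M).det = μ.det := by
    rw [← eH_apply, RingHom.map_det]
    rfl
  rw [e4, hdet]
  exact Finset.prod_ne_zero_iff.mpr fun n _ => hE.t0 n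

end Pool.Agent.PST.ET.H1
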