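import Pool.Agent.PST.StmtsK3
import Pool.Agent.PSS.Nwe

set_option autoImplicit false

open scoped BigOperators

noncomputable section

namespace Pool.Agent.PST.H1

open Pool.Agent.PFC (tw IsTv)
open Pool.Agent.PFD.D2 (Cdv FibG)
open Pool.Agent.PFD.D2b (FrR)
open Pool.Agent.PSS

theorem lfx_cw {R V A : Type} [CommRing R] [CommGroup V] [Ring A] [Algebra R A] (α : V →* A)
    (s : V) (a : A) : cw R α s a = α s * (a * α s⁻¹) := rfl

theorem lfx_bw {R V A : Type} [CommRing R] [CommGroup V] [Ring A] [Algebra R A] (α : V →* A)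
    (s : V) (a : A) : cw R α s a = bw R α (s, s) a := rfl

theorem lfx : LfxStmt := by
  intro R F V A A₀ κ Ω _ _ _ _ _ _ _ _ _ _ _ cv f α₀ lam₀ x₀ y₀ b₀ c₀ α lam x y b c hF hL S
  have hqs : ∀ (r : R) (a : A), f.q (r • a) = cv.κ r • f.q a := by
    intro r a
    rw [Algebra.smul_def, map_mul, f.sc, ← Algebra.smul_def]
  have hqc : ∀ (s : V) (a : A), f.q (cw R α s a) = cw F α₀ s (f.q a) := by
    intro s a
    rw [lfx_cw, lfx_cw, map_mul, map_mul, hL.qa, hL.qa]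
  have part1 : ∀ T : Subgroup V, ∀ a₀ ∈ FxR (cw F α₀) T, ∃ a ∈ FxR (cw R α) T, f.q a = a₀ := by
    intro T a₀ ha₀
    set σ : F → R := Function.surjInv cv.surj with hσ
    have hσ' : ∀ t, cv.κ (σ t) = t := Function.surjInv_eq cv.surj
    refine ⟨∑ ω, σ (c₀ ω a₀) • b ω, ?_, ?_⟩
    · intro s hs
      rw [map_sum]
      have h1 : cw F α₀ s a₀ = a₀ := ha₀ s hs
      refine Fintype.sum_equiv (MulAction.toPerm ((s, s) : V × V)) _ _ fun ω => ?_
      have h2 : c₀ ((s, s) • ω) a₀ = c₀ ω a₀ := by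
        have h3 := hF.2.1 (s, s) ω a₀
        rw [← lfx_bw, h1] at h3
        exact h3
      rw [map_smul, lfx_bw, ← hL.fr.1]
      show σ (c₀ ω a₀) • b ((s, s) • ω) = σ (c₀ ((s, s) • ω) a₀) • b ((s, s) • ω)
      rw [h2]
    · rw [map_sum]
      have h1 : ∀ ω, f.q (σ (c₀ ω a₀) • b ω) = c₀ ω a₀ • b₀ ω := by
        intro ω
        rw [hqs, hσ', hL.qb]
      rw [Finset.sum_congr rfl fun ω _ => h1 ω]
      exact hF.2.2 a₀
  have part2 : ∀ a₀ ∈ BKR (cw F α₀) S, ∃ a ∈ BKR (cw R α) S, f.q a = a₀ := by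
    intro a₀ ha₀
    refine Submodule.span_induction (p := fun a₀ _ => ∃ a ∈ BKR (cw R α) S, f.q a = a₀)
      ?_ ?_ ?_ ?_ ha₀
    · rintro n ⟨P', T, m₀, hP, hT, hm, rfl⟩
      obtain ⟨m, hm1, hm2⟩ := part1 P' m₀ hm
      refine ⟨∑ s ∈ T, cw R α s m, Submodule.subset_span ⟨P', T, m, hP, hT, hm1, rfl⟩, ?_⟩
      rw [map_sum]
      refine Finset.sum_congr rfl fun s _ => ?_
      rw [hqc, hm2]
    · exact ⟨0, Submodule.zero_mem _, map_zero _⟩
    · rintro s t _ _ ⟨a, ha, rfl⟩ ⟨a', ha', rfl⟩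
      exact ⟨a + a', Submodule.add_mem _ ha ha', map_add _ _ _⟩
    · rintro r s _ ⟨a, ha, rfl⟩
      obtain ⟨r', hr'⟩ := cv.surj r
      exact ⟨r' • a, Submodule.smul_mem _ _ ha, by rw [hqs, hr']⟩
  refine ⟨part1 S, part2, ?_⟩
  intro a ha
  refine ⟨?_, ?_⟩
  · intro s hs
    rw [← hqc, ha s hs]
  · intro hb
    obtain ⟨a', ha', hq⟩ := part2 _ hb
    have h1 : f.q (a - a') = 0 := by rw [map_sub, hq, sub_self]
    obtain ⟨d, hd⟩ := f.ker _ h1
    refine ⟨a', ha', d, ?_, ?_⟩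
    · intro s hs
      have h2 : a - a' ∈ FxR (cw R α) S := Submodule.sub_mem _ ha (BKR_le_FxR ha')
      have h3 : cw R α s (a - a') = a - a' := h2 s hs
      rw [hd, map_smul] at h3
      have h4 : cv.π • (cw R α s d - d) = 0 := by rw [smul_sub, h3, sub_self]
      have h5 : ∀ ω, c ω (cw R α s d - d) = 0 := by
        intro ω
        refine cv.reg _ ?_
        rw [← smul_eq_mul, ← map_smul, h4, map_zero]
      have h6 := hL.fr.2.2 (cw R α s d - d)
      simp only [h5, zero_smul, Finset.sum_const_zero] at h6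
      exact (sub_eq_zero.1 h6.symm)
    · rw [← hd]
      abel

end Pool.Agent.PST.H1
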