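import Pool.Agent.PST.StmtsK3

set_option autoImplicit false

open scoped BigOperators

noncomputable section

namespace Pool.Agent.PST.H1

open Pool.Agent.PSS

section inr

variable {R K : Type} [CommRing R] [Field K] [Algebra R K]

theorem inR_zero : InR R (0 : K) := ⟨0, map_zero _⟩

theorem inR_add {s t : K} (hs : InR R s) (ht : InR R t) : InR R (s + t) := by
  obtain ⟨a, rfl⟩ := hs
  obtain ⟨b, rfl⟩ := ht
  exact ⟨a + b, map_add _ _ _⟩

theorem inR_neg {s : K} (hs : InR R s) : InR R (-s) := by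
  obtain ⟨a, rfl⟩ := hs
  exact ⟨-a, map_neg _ _⟩

theorem inR_sub {s t : K} (hs : InR R s) (ht : InR R t) : InR R (s - t) := by
  rw [sub_eq_add_neg]
  exact inR_add hs (inR_neg ht)

end inr

theorem obn : ObnStmt := by
  intro R K V A B κ Ω _ _ _ _ _ _ _ _ _ _ _ _ _ W α lam x y b c C cc hZ z ℓ u g hzu hzg hgW
  set β : V →* B := ia C.i α with hβ
  have hβa : ∀ v, C.i (α v) = β v := fun v => rfl
  have sym : ∀ s t, C.lamK (s * t) = C.lamK (t * s) := C.rfK.sym
  have lamI : ∀ a : A, InR R (C.lamK (C.i a)) := fun a => ⟨lam a, (C.lk a).symm⟩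
  have hc : ∀ v w : V, β v * β w = β w * β v := fun v w => by
    rw [← map_mul, ← map_mul, mul_comm]
  have hW1 : ∀ w ∈ W, ∀ s, cc s (β w) = 0 := by
    intro w hw s
    have h := (hZ.rel w hw s 1).2.2
    have h' : cc s (1 * β w) = cc s 1 * β w := h
    have h1 : cc s 1 = 0 := hZ.nrm.2 s
    rw [one_mul, h1, zero_mul] at h'
    exact h'
  have hW2 : ∀ w ∈ W, ∀ s, cc (β w) s = 0 := by
    intro w hw s
    have h := (hZ.rel w hw 1 s).1
    have h' : cc (β w * 1) s = β w * cc 1 s := h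
    have h1 : cc 1 s = 0 := hZ.nrm.1 s
    rw [mul_one, h1, mul_zero] at h'
    exact h'
  set D : ℕ → B := fun n => cc (β u) (β (g ^ n)) - cc (β (g ^ n)) (β u) with hD
  have step : ∀ n, ∃ a : A, D (n + 1) = C.i a + (β g * D n + D 1 * β (g ^ n) -
      (β u * cc (β g) (β (g ^ n)) - cc (β g) (β (g ^ n)) * β u)) := by
    intro n
    obtain ⟨a1, h1⟩ := hZ.cyc (α u) (α g) (α (g ^ n))
    obtain ⟨a2, h2⟩ := hZ.cyc (α g) (α u) (α (g ^ n))
    obtain ⟨a3, h3⟩ := hZ.cyc (α g) (α (g ^ n)) (α u)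
    refine ⟨a1 - a2 + a3, ?_⟩
    rw [map_add, map_sub, h1, h2, h3]
    simp only [dl, hβa, hD, pow_one]
    rw [hc g u, hc (g ^ n) u, show β (g ^ (n + 1)) = β g * β (g ^ n) by
      rw [← map_mul, pow_succ']]
    noncomm_ring
  have main : ∀ (n : ℕ) (z : A), z * α u = α u * z →
      InR R (C.lamK (C.i z * (D n * β (u * g ^ n)⁻¹)) -
        C.lamK (C.i (∑ j ∈ Finset.range n, α (g ^ j)⁻¹ * z * α (g ^ j)) *
          (D 1 * β (u * g ^ 1)⁻¹))) := by
    intro n
    induction n with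
    | zero =>
      intro z hz
      have h0 : D 0 = 0 := by
        have h1 : cc (β u) 1 = 0 := hZ.nrm.2 _
        have h2 : cc 1 (β u) = 0 := hZ.nrm.1 _
        simp only [hD, pow_zero, map_one, h1, h2, sub_self]
      rw [h0, zero_mul, mul_zero, Finset.sum_range_zero, map_zero C.i, zero_mul, map_zero, sub_zero]
      exact inR_zero
    | succ n ih =>
      intro z hz
      obtain ⟨a, ha⟩ := step n
      set s : B := cc (β g) (β (g ^ n)) with hs
      have hz' : (α g⁻¹ * z * α g) * α u = α u * (α g⁻¹ * z * α g) := by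
        have e1 : α g * α u = α u * α g := by rw [← map_mul, ← map_mul, mul_comm]
        have e2 : α g⁻¹ * α u = α u * α g⁻¹ := by rw [← map_mul, ← map_mul, mul_comm]
        calc (α g⁻¹ * z * α g) * α u = α g⁻¹ * z * (α g * α u) := by rw [mul_assoc]
          _ = α g⁻¹ * z * (α u * α g) := by rw [e1]
          _ = α g⁻¹ * (z * α u) * α g := by simp only [mul_assoc]
          _ = α g⁻¹ * (α u * z) * α g := by rw [hz]
          _ = (α g⁻¹ * α u) * z * α g := by simp only [mul_assoc]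
          _ = (α u * α g⁻¹) * z * α g := by rw [e2]
          _ = α u * (α g⁻¹ * z * α g) := by simp only [mul_assoc]
      have ih' := ih _ hz'
      -- the four terms
      have t0 : C.i z * (C.i a * β (u * g ^ (n + 1))⁻¹) = C.i (z * a * α (u * g ^ (n + 1))⁻¹) := by
        rw [map_mul, map_mul, mul_assoc]
        rfl
      have t1 : C.lamK (C.i z * (β g * D n * β (u * g ^ (n + 1))⁻¹)) =
          C.lamK (C.i (α g⁻¹ * z * α g) * (D n * β (u * g ^ n)⁻¹)) := by
        have e1 : β (u * g ^ (n + 1))⁻¹ = β (u * g ^ n)⁻¹ * β g⁻¹ := by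
          rw [← map_mul]
          congr 1
          rw [pow_succ]
          simp only [mul_inv]
          rw [mul_assoc]
        rw [e1]
        have e2 : C.i z * (β g * D n * (β (u * g ^ n)⁻¹ * β g⁻¹)) =
            (C.i z * β g * (D n * β (u * g ^ n)⁻¹)) * β g⁻¹ := by simp only [mul_assoc]
        rw [e2, sym]
        congr 1
        rw [map_mul, map_mul, hβa, hβa]
        simp only [mul_assoc]
      have t2 : C.i z * (D 1 * β (g ^ n) * β (u * g ^ (n + 1))⁻¹) =
          C.i z * (D 1 * β (u * g ^ 1)⁻¹) := by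
        have e1 : β (g ^ n) * β (u * g ^ (n + 1))⁻¹ = β (u * g ^ 1)⁻¹ := by
          rw [← map_mul]
          congr 1
          rw [pow_succ, pow_one]
          simp only [mul_inv]
          rw [mul_left_comm, mul_inv_cancel_left]
        rw [mul_assoc (D 1), e1]
      have t3 : C.lamK (C.i z * ((β u * s - s * β u) * β (u * g ^ (n + 1))⁻¹)) = 0 := by
        have e1 : β u * β (u * g ^ (n + 1))⁻¹ = β (u * g ^ (n + 1))⁻¹ * β u := hc _ _
        have e2 : C.i z * ((β u * s - s * β u) * β (u * g ^ (n + 1))⁻¹) =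
            (C.i z * β u) * (s * β (u * g ^ (n + 1))⁻¹) -
              (C.i z * (s * β (u * g ^ (n + 1))⁻¹)) * β u := by
          rw [sub_mul, mul_sub]
          congr 1
          · simp only [mul_assoc]
          · simp only [mul_assoc]
            rw [e1]
        have e3 : C.i z * β u = β u * C.i z := by
          rw [← hβa, ← map_mul, ← map_mul, hz]
        rw [e2, map_sub, sym (C.i z * (s * β (u * g ^ (n + 1))⁻¹)) (β u), e3, mul_assoc, sub_self]
      have t4 : C.i (∑ j ∈ Finset.range (n + 1), α (g ^ j)⁻¹ * z * α (g ^ j)) =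
          C.i (∑ j ∈ Finset.range n, α (g ^ j)⁻¹ * (α g⁻¹ * z * α g) * α (g ^ j)) + C.i z := by
        rw [Finset.sum_range_succ', map_add]
        congr 1
        · congr 1
          refine Finset.sum_congr rfl fun j _ => ?_
          have e1 : α (g ^ (j + 1))⁻¹ = α (g ^ j)⁻¹ * α g⁻¹ := by
            rw [← map_mul]
            congr 1
            rw [pow_succ, mul_inv]
          have e2 : α (g ^ (j + 1)) = α g * α (g ^ j) := by
            rw [← map_mul, pow_succ']
          rw [e1, e2]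
          simp only [mul_assoc]
        · simp
      have e5 : C.i z * (D (n + 1) * β (u * g ^ (n + 1))⁻¹) =
          C.i z * (C.i a * β (u * g ^ (n + 1))⁻¹) +
          C.i z * (β g * D n * β (u * g ^ (n + 1))⁻¹) +
          C.i z * (D 1 * β (g ^ n) * β (u * g ^ (n + 1))⁻¹) -
          C.i z * ((β u * s - s * β u) * β (u * g ^ (n + 1))⁻¹) := by
        rw [ha]
        simp only [add_mul, sub_mul, mul_add, mul_sub]
        abel
      rw [e5, map_sub, map_add, map_add, t3, t2, t1, t0, t4, add_mul, map_add]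
      have e6 : C.lamK (C.i (z * a * α (u * g ^ (n + 1))⁻¹)) +
          C.lamK (C.i (α g⁻¹ * z * α g) * (D n * β (u * g ^ n)⁻¹)) +
          C.lamK (C.i z * (D 1 * β (u * g ^ 1)⁻¹)) - 0 -
          (C.lamK (C.i (∑ j ∈ Finset.range n, α (g ^ j)⁻¹ * (α g⁻¹ * z * α g) * α (g ^ j)) *
            (D 1 * β (u * g ^ 1)⁻¹)) + C.lamK (C.i z * (D 1 * β (u * g ^ 1)⁻¹))) =
          C.lamK (C.i (z * a * α (u * g ^ (n + 1))⁻¹)) +
          (C.lamK (C.i (α g⁻¹ * z * α g) * (D n * β (u * g ^ n)⁻¹)) -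
          C.lamK (C.i (∑ j ∈ Finset.range n, α (g ^ j)⁻¹ * (α g⁻¹ * z * α g) * α (g ^ j)) *
            (D 1 * β (u * g ^ 1)⁻¹))) := by ring
      rw [e6]
      exact inR_add (lamI _) ih'
  have hfin := main ℓ z hzu
  have hDl : D ℓ = 0 := by
    simp only [hD]
    rw [hW1 _ hgW, hW2 _ hgW, sub_self]
  rw [hDl, zero_mul, mul_zero, map_zero, zero_sub] at hfin
  have hfin2 := inR_neg hfin
  rw [neg_neg] at hfin2
  -- the sum
  set G : ℕ → A := fun j => α (g ^ j) * z * α (g ^ j)⁻¹ with hG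
  have hs1 : ∀ j, j ≤ ℓ → α (g ^ j)⁻¹ * z * α (g ^ j) = G (ℓ - j) := by
    intro j hj
    simp only [hG]
    have e1 : g ^ (ℓ - j) = (g ^ j)⁻¹ * g ^ ℓ := by
      rw [eq_inv_mul_iff_mul_eq, ← pow_add]
      congr 1
      omega
    have e2 : (g ^ (ℓ - j))⁻¹ = (g ^ ℓ)⁻¹ * g ^ j := by
      rw [e1, mul_inv_rev, inv_inv]
    rw [e2, e1, map_mul, map_mul]
    have e3 : α (g ^ ℓ) * z * α (g ^ ℓ)⁻¹ = z := by
      rw [← hzg, mul_assoc, ← map_mul, mul_inv_cancel, map_one, mul_one]
    calc α (g ^ j)⁻¹ * z * α (g ^ j)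
        = α (g ^ j)⁻¹ * (α (g ^ ℓ) * z * α (g ^ ℓ)⁻¹) * α (g ^ j) := by rw [e3]
      _ = α (g ^ j)⁻¹ * α (g ^ ℓ) * z * (α (g ^ ℓ)⁻¹ * α (g ^ j)) := by simp only [mul_assoc]
  have hs2 : ∑ j ∈ Finset.range ℓ, α (g ^ j)⁻¹ * z * α (g ^ j) = ∑ j ∈ Finset.range ℓ, G j := by
    have e1 : ∑ j ∈ Finset.range ℓ, α (g ^ j)⁻¹ * z * α (g ^ j) =
        ∑ j ∈ Finset.range ℓ, G (ℓ - 1 - j + 1) := by
      refine Finset.sum_congr rfl fun j hj => ?_
      rw [Finset.mem_range] at hj
      rw [hs1 j hj.le]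
      congr 1
      omega
    rw [e1, Finset.sum_range_reflect (fun j => G (j + 1)) ℓ]
    have e2 := Finset.sum_range_succ G ℓ
    have e3 := Finset.sum_range_succ' G ℓ
    have e4 : G ℓ = G 0 := by
      have h5 := hs1 ℓ le_rfl
      have h6 := hs1 0 (Nat.zero_le _)
      rw [Nat.sub_self] at h5
      rw [Nat.sub_zero] at h6
      rw [← h6]
      simp [hG]
    rw [e3, e4] at e2
    exact add_right_cancel e2
  rw [hs2] at hfin2
  have hfin3 : kp C.i α cc u g = D 1 * β (u * g ^ 1)⁻¹ := by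
    simp only [kp, hD, pow_one, hβa]
  rw [hfin3]
  exact hfin2

end Pool.Agent.PST.H1
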