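import Pool.Agent.PST.StmtsET1

/-!
# PST, block ET, row WUN (helper1): `w` is a unit
-/

open scoped BigOperators TensorProduct

noncomputable section

namespace Pool.Agent.PST.ET.H1

open Pool.Agent.PFD.D2 (Cdv FibG)
open Pool.Agent.PST.ET

theorem wun (hEps : EpsStmt) (hUns : UnsStmt) (hSca : ScaStmt) : WunStmt := by
  intro ℓ r _ R F V S _ _ _ _ _ _ _ _ c σ cf b Δ hV hS hb hΔ
  obtain ⟨h1, ha, hm, hr, -, -, -, hσ, -⟩ :=
    hEps R F V S c σ cf (fun _ => 0) hS (by simp)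
  have h0 : eps c cf 0 = 0 := by simp [eps]
  have hπ : c.κ c.π = 0 := (c.ker c.π).mpr ⟨1, (mul_one _).symm⟩
  let I : Ideal S := Ideal.span {algebraMap R S c.π}
  have hI : ∀ s, s ∈ I ↔ ∃ d, s = c.π • d := by
    intro s
    rw [Ideal.mem_span_singleton']
    constructor
    · rintro ⟨a, rfl⟩
      exact ⟨a, by rw [Algebra.smul_def, mul_comm]⟩
    · rintro ⟨a, rfl⟩
      exact ⟨a, by rw [Algebra.smul_def, mul_comm]⟩
  let K : Type := S ⧸ I
  let mk : S →+* K := Ideal.Quotient.mk I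
  have mk0 : ∀ d : S, mk (c.π • d) = 0 := fun d =>
    Ideal.Quotient.eq_zero_iff_mem.mpr ((hI _).mpr ⟨d, rfl⟩)
  -- nontrivial
  have hnt : (1 : K) ≠ 0 := by
    intro h
    have h' : mk 1 = 0 := by rw [map_one]; exact h
    obtain ⟨d, hd⟩ := (hI _).mp (Ideal.Quotient.eq_zero_iff_mem.mp h')
    have h2 := congrArg (eps c cf) hd
    rw [h1, hr, hπ, zero_mul] at h2
    exact one_ne_zero h2
  haveI : Nontrivial K := ⟨1, 0, hnt⟩
  haveI hch : CharP K ℓ := by
    apply ringChar.of_eq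
    apply CharP.ringChar_of_prime_eq_zero (Fact.out : ℓ.Prime)
    have h3 : ((ℓ : R)) = 0 := CharP.cast_eq_zero R ℓ
    have h4 : mk (algebraMap R S (ℓ : R)) = 0 := by rw [h3, map_zero, map_zero]
    rwa [map_natCast, map_natCast] at h4
  -- the homomorphism `β`
  let β : V →* K :=
    { toFun := fun v => mk (σ v)
      map_one' := by rw [hS.one, map_one]
      map_mul' := fun u v => by
        obtain ⟨d, hd⟩ := hS.mul u v
        rw [← map_mul, hd, map_add, mk0, add_zero] }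
  -- `F → K`
  let g0 : R →+* K := mk.comp (algebraMap R S)
  have hg0 : RingHom.ker c.κ ≤ RingHom.ker g0 := by
    intro a haa
    rw [RingHom.mem_ker] at haa ⊢
    obtain ⟨s, hs⟩ := (c.ker a).mp haa
    show mk (algebraMap R S a) = 0
    rw [hs, map_mul, ← Algebra.smul_def]
    exact mk0 _
  let iF : F →+* K :=
    c.κ.liftOfRightInverse _ (Function.rightInverse_surjInv c.surj) ⟨g0, hg0⟩
  have iF_κ : ∀ a, iF (c.κ a) = mk (algebraMap R S a) := fun a =>
    RingHom.liftOfRightInverse_comp_apply c.κ _ (Function.rightInverse_surjInv c.surj)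
      ⟨g0, hg0⟩ a
  -- the two maps
  let f1 : S →ₐ[R] K :=
    { toFun := fun x => iF (eps c cf x)
      map_one' := by rw [h1, map_one]
      map_mul' := fun x y => by rw [hm, map_mul]
      map_zero' := by rw [h0, map_zero]
      map_add' := fun x y => by rw [ha, map_add]
      commutes' := fun a => by
        rw [Algebra.algebraMap_eq_smul_one, hr, h1, mul_one, iF_κ]
        rfl }
  let f2 : S →ₐ[R] K := Ideal.Quotient.mkₐ R I
  let Θ : S ⊗[R] S →ₐ[R] K := Algebra.TensorProduct.productMap f1 f2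
  have Θt : ∀ x y : S, Θ (x ⊗ₜ[R] y) = iF (eps c cf x) * mk y := fun x y =>
    Algebra.TensorProduct.productMap_apply_tmul f1 f2 x y
  have hΘπ : Θ.toRingHom (algebraMap R (S ⊗[R] S) c.π) = 0 := by
    show Θ (algebraMap R (S ⊗[R] S) c.π) = 0
    rw [AlgHom.commutes]
    show mk (algebraMap R S c.π) = 0
    rw [Algebra.algebraMap_eq_smul_one]
    exact mk0 _
  have hΘd : ∀ i, Θ.toRingHom (σ (b i) ⊗ₜ[R] (1 : S) - (1 : S) ⊗ₜ[R] σ (b i)) =
      1 - β (b i) := by
    intro i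
    show Θ (σ (b i) ⊗ₜ[R] (1 : S) - (1 : S) ⊗ₜ[R] σ (b i)) = 1 - mk (σ (b i))
    rw [map_sub, Θt, Θt, hσ, h1, map_one, map_one]
    ring
  have hΘΔ : Θ Δ = mk (∑ v, σ v) := by
    have h5 := hΔ K Θ.toRingHom hΘπ
    rw [Finset.prod_congr rfl fun i _ => by rw [hΘd i], ← hSca ℓ r V K β b hb] at h5
    rw [map_sum]
    exact h5
  -- lifts
  have lift : ∀ D : S ⊗[R] S, ∃ z : S, mk z = Θ D ∧
      c.κ (cf 1 z) =
        eps c cf (TensorProduct.lift ((LinearMap.lsmul R S).flip.compl₂ (cf 1)) D) := by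
    intro D
    induction D using TensorProduct.induction_on with
    | zero => exact ⟨0, by simp, by simp [h0]⟩
    | add D D' h h' =>
      obtain ⟨z, hz, hz'⟩ := h
      obtain ⟨y, hy, hy'⟩ := h'
      exact ⟨z + y, by rw [map_add, map_add, hz, hy],
        by rw [map_add, map_add, map_add, ha, hz', hy']⟩
    | tmul x y =>
      obtain ⟨a, haa⟩ := c.surj (eps c cf x)
      refine ⟨a • y, ?_, ?_⟩
      · rw [Θt, ← haa, iF_κ, Algebra.smul_def, map_mul]
      · rw [TensorProduct.lift.tmul]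
        show c.κ (cf 1 (a • y)) = eps c cf (cf 1 y • x)
        rw [hr, map_smul, smul_eq_mul, map_mul, haa, mul_comm]
  obtain ⟨z, hz, hz'⟩ := lift Δ
  refine hUns ℓ R F V S c σ cf hV hS _ ?_
  rw [← hz']
  have h6 : z - ∑ v, σ v ∈ I := by
    rw [← Ideal.Quotient.eq_zero_iff_mem, map_sub]
    show mk z - mk (∑ v, σ v) = 0
    rw [hz, hΘΔ, sub_self]
  obtain ⟨d, hd⟩ := (hI _).mp h6
  have h7 : z = ∑ v, σ v + c.π • d := by rw [← hd]; ring
  have h8 : c.κ (cf 1 z) = 1 := by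
    rw [h7, map_add, map_smul, smul_eq_mul, map_add, map_mul, hπ, zero_mul, add_zero, map_sum]
    simp [hS.b2]
  rw [h8]
  exact one_ne_zero

end Pool.Agent.PST.ET.H1
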